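import Pool.Agent.Lib.MP_610dff_co_helper16.Eval

/-!
# A graph with `MOF(G) < n - μ(G)`

The graph `G0` below has `15` vertices and `21` edges: it is the truncation of `K_4` in which the
three edges of one face outside the triangles are subdivided once.  Every orientation of `G0`
has a forcing set with at most `7` vertices (a decision tree over the directions of the edges is
checked by the kernel), while every matching has at most `7` edges, so
`MOF(G0) ≤ 7 < 8 ≤ 15 - μ(G0)`.
-/

namespace Pool.Agent.Results.MP_610dff_co.MatchingBoundFails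

open Pool.Agent.Lib.MP_610dff_co_helper16

section Definitions

variable {V : Type*}

/-- `D` is the arc relation of an orientation of the graph `G`: every arc joins adjacent
vertices, and of the two possible arcs on an edge exactly one is present. -/
def IsOrientation (G : SimpleGraph V) (D : V → V → Prop) : Prop :=
  (∀ u v, D u v → G.Adj u v) ∧
    ∀ u v, G.Adj u v → (D u v ∧ ¬ D v u) ∨ (D v u ∧ ¬ D u v)

/-- One simultaneous round of the colour change rule applied to the coloured set `S`: every
vertex `v` which is the only uncoloured out-neighbour of some coloured vertex `u` becomes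
coloured. -/
def colourStep (D : V → V → Prop) (S : Set V) : Set V :=
  S ∪ {v | ∃ u ∈ S, {w | D u w ∧ w ∉ S} = {v}}

/-- `S` is a forcing set of `D`: it is nonempty and after finitely many rounds of the colour
change rule every vertex is coloured. -/
def IsForcingSet (D : V → V → Prop) (S : Finset V) : Prop :=
  S.Nonempty ∧ ∃ k : ℕ, (colourStep D)^[k] (S : Set V) = Set.univ

/-- The oriented forcing number `F(D)`: the least size of a forcing set. -/
noncomputable def forcingNumber (D : V → V → Prop) : ℕ :=
  sInf {k | ∃ S : Finset V, IsForcingSet D S ∧ S.card = k}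

/-- The maximum oriented forcing number `MOF(G)`: the largest `F(D)` over all orientations `D`
of `G`. -/
noncomputable def MOF (G : SimpleGraph V) : ℕ :=
  sSup {k | ∃ D : V → V → Prop, IsOrientation G D ∧ forcingNumber D = k}

/-- `M` is a matching of `G`: a set of edges of `G`, no two of which share a vertex. -/
def IsMatching (G : SimpleGraph V) (M : Finset (Sym2 V)) : Prop :=
  (∀ e ∈ M, e ∈ G.edgeSet) ∧ ∀ e ∈ M, ∀ f ∈ M, ∀ x, x ∈ e → x ∈ f → e = f

/-- The matching number: the largest size of a matching. -/
noncomputable def matchingNumber (G : SimpleGraph V) : ℕ :=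
  sSup {k | ∃ M : Finset (Sym2 V), IsMatching G M ∧ M.card = k}

end Definitions

section General

variable {V : Type*}

theorem colourStep_mono {D : V → V → Prop} {A B : Set V} (h : A ⊆ B) :
    colourStep D A ⊆ colourStep D B := by
  intro v hv
  rcases hv with hA | ⟨u, hu, huv⟩
  · exact Or.inl (h hA)
  · by_cases hvB : v ∈ B
    · exact Or.inl hvB
    · refine Or.inr ⟨u, h hu, ?_⟩
      have hv' : v ∈ {w | D u w ∧ w ∉ A} := by rw [huv]; rfl
      ext w
      constructor
      · rintro ⟨hD, hw⟩
        have : w ∈ {w | D u w ∧ w ∉ A} := ⟨hD, fun hwA => hw (h hwA)⟩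
        rw [huv] at this
        exact this
      · intro hw
        rw [Set.mem_singleton_iff] at hw
        subst hw
        exact ⟨hv'.1, hvB⟩

/-- All vertices together form a forcing set, so `F(D)` is a minimum over a nonempty set of
values. -/
theorem isForcingSet_univ [Fintype V] [Nonempty V] (D : V → V → Prop) :
    IsForcingSet D (Finset.univ : Finset V) :=
  ⟨Finset.univ_nonempty, 0, by simp⟩

theorem forcingNumber_le_card [Fintype V] [Nonempty V] (D : V → V → Prop) :
    forcingNumber D ≤ Fintype.card V :=
  Nat.sInf_le ⟨Finset.univ, isForcingSet_univ D, rfl⟩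

/-- The set of values in the definition of `MOF` is bounded, so `MOF(G)` is a true maximum. -/
theorem forcingNumber_le_MOF [Fintype V] [Nonempty V] {G : SimpleGraph V} {D : V → V → Prop}
    (hD : IsOrientation G D) : forcingNumber D ≤ MOF G := by
  refine le_csSup ⟨Fintype.card V, ?_⟩ ⟨D, hD, rfl⟩
  rintro k ⟨D', -, rfl⟩
  exact forcingNumber_le_card D'

/-- A matching has at most half as many edges as there are vertices. -/
theorem two_mul_card_le [Fintype V] [DecidableEq V] {G : SimpleGraph V} {M : Finset (Sym2 V)}
    (hM : IsMatching G M) : 2 * M.card ≤ Fintype.card V := by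
  have h1 : (M.biUnion fun e => e.toFinset).card = ∑ e ∈ M, e.toFinset.card := by
    refine Finset.card_biUnion ?_
    intro e he f hf hef
    refine Finset.disjoint_left.2 ?_
    intro x hx hx'
    rw [Sym2.mem_toFinset] at hx hx'
    exact hef (hM.2 e he f hf x hx hx')
  have h2 : ∑ e ∈ M, e.toFinset.card = 2 * M.card := by
    rw [Finset.sum_congr rfl (g := fun _ => 2), Finset.sum_const, smul_eq_mul, mul_comm]
    intro e he
    exact Sym2.card_toFinset_of_not_isDiag e (G.not_isDiag_of_mem_edgeSet (hM.1 e he))
  rw [← h2, ← h1]
  exact Finset.card_le_univ _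

end General

section Soundness

theorem leaf_sound (full poss : ℕ) (D : Fin 15 → Fin 15 → Prop)
    (hfull : ∀ x y : Fin 15, full.testBit (16 * x.val + y.val) = true → D x y ∨ D y x)
    (hposs : ∀ x y : Fin 15, D x y → poss.testBit (16 * x.val + y.val) = true) :
    ∀ k L later : ℕ, leafCheck full poss k L later = true →
      ∃ W : Finset (Fin 15), W.card = k ∧ (∀ x ∈ W, later.testBit x.val = false) ∧
        ∀ x : Fin 15, later.testBit x.val = false →
          x ∈ (colourStep D)^[k] {y : Fin 15 | y ∉ W ∧ later.testBit y.val = false} := by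
  intro k
  induction k with
  | zero =>
    intro L later _
    refine ⟨∅, rfl, by simp, ?_⟩
    intro x hx
    simpa using hx
  | succ k ih =>
    intro L later h
    simp only [leafCheck, Bool.and_eq_true, tb_eq, Bool.not_eq_true'] at h
    obtain ⟨hu, hv, hf, hp, hr, hlu, hlv, hrec⟩ := h
    set i := L % 256 with hi
    have hu' : i / 16 < 15 := by simpa [Nat.blt_eq] using hu
    have hv' : i % 16 < 15 := by simpa [Nat.blt_eq] using hv
    have hidecomp : 16 * (i / 16) + i % 16 = i := Nat.div_add_mod i 16
    let u : Fin 15 := ⟨i / 16, hu'⟩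
    let v : Fin 15 := ⟨i % 16, hv'⟩
    have hDuv : D u v := by
      rcases hfull u v (by simpa [u, v, hidecomp] using hf) with h1 | h1
      · exact h1
      · have := hposs v u h1
        simp only [u, v] at this
        rw [hp] at this
        exact absurd this (by decide)
    have hrow : ∀ w : Fin 15, later.testBit w.val = true → ¬ D u w := by
      intro w hw hDw
      have h1 := hposs u w hDw
      have h2 : Nat.land (Nat.shiftRight poss (16 * (i / 16))) later = 0 := by
        simpa [Nat.beq_eq] using hr
      have h3 : (Nat.land (Nat.shiftRight poss (16 * (i / 16))) later).testBit w.val = true := by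
        have h4 : Nat.land (Nat.shiftRight poss (16 * (i / 16))) later =
          (poss >>> (16 * (i / 16))) &&& later := rfl
        rw [h4, Nat.testBit_land, Nat.testBit_shiftRight, hw]
        simpa [u] using h1
      rw [h2] at h3
      simp at h3
    have hlor : ∀ x : Fin 15, (Nat.lor later (2 ^ (i % 16))).testBit x.val = false ↔
        later.testBit x.val = false ∧ x ≠ v := by
      intro x
      have h4 : Nat.lor later (2 ^ (i % 16)) = later ||| (2 ^ (i % 16)) := rfl
      rw [h4, Nat.testBit_lor, Nat.testBit_two_pow, Bool.or_eq_false_iff]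
      have : (decide (i % 16 = x.val) = false) ↔ x ≠ v := by
        rw [decide_eq_false_iff_not]
        constructor
        · intro h5 h6
          exact h5 (by rw [h6])
        · intro h5 h6
          exact h5 (Fin.ext h6.symm)
      rw [this]
    obtain ⟨W', hWc, hWd, hWr⟩ := ih (L / 256) _ hrec
    have hvW : v ∉ W' := by
      intro hvW
      exact ((hlor v).1 (hWd v hvW)).2 rfl
    have huv : u ≠ v := by
      intro huv
      have h1 := hposs u v hDuv
      rw [huv] at h1
      have h2 : poss.testBit (16 * v.val + u.val) = false := hp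
      rw [huv] at h2
      rw [h1] at h2
      exact absurd h2 (by decide)
    refine ⟨insert v W', ?_, ?_, ?_⟩
    · rw [Finset.card_insert_of_notMem hvW, hWc]
    · intro x hx
      rcases Finset.mem_insert.1 hx with h1 | h1
      · rw [h1]; exact hlv
      · exact ((hlor x).1 (hWd x h1)).1
    · intro x hx
      rw [Function.iterate_succ_apply']
      have hset : {y : Fin 15 | y ∉ insert v W' ∧ later.testBit y.val = false} =
          {y : Fin 15 | y ∉ W' ∧ (Nat.lor later (2 ^ (i % 16))).testBit y.val = false} := by
        ext y
        simp only [Set.mem_ofPred_eq, Finset.mem_insert, not_or]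
        rw [hlor y]
        tauto
      rw [hset]
      set A := (colourStep D)^[k]
        {y : Fin 15 | y ∉ W' ∧ (Nat.lor later (2 ^ (i % 16))).testBit y.val = false} with hA
      by_cases hxv : x = v
      · by_cases hvA : v ∈ A
        · exact Or.inl (by rw [hxv]; exact hvA)
        · refine Or.inr ⟨u, hWr u ((hlor u).2 ⟨hlu, huv⟩), ?_⟩
          rw [hxv]
          ext w
          constructor
          · rintro ⟨hD, hwA⟩
            by_contra hwv
            apply hwA
            apply hWr
            rw [hlor]
            refine ⟨?_, hwv⟩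
            by_contra hcon
            exact hrow w (by simpa using hcon) hD
          · intro hw
            rw [Set.mem_singleton_iff] at hw
            rw [hw]
            exact ⟨hDuv, hvA⟩
      · exact Or.inl (hWr x ((hlor x).2 ⟨hx, hxv⟩))

theorem tree_sound (full : ℕ) (D : Fin 15 → Fin 15 → Prop)
    (hfull : ∀ x y : Fin 15, full.testBit (16 * x.val + y.val) = true → D x y ∨ D y x)
    (hasym : ∀ x y : Fin 15, D x y → ¬ D y x) (T : Tree) :
    ∀ poss : ℕ, (∀ x y : Fin 15, D x y → poss.testBit (16 * x.val + y.val) = true) →
      check full T poss = true →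
      ∃ W : Finset (Fin 15), W.card = 8 ∧
        ∀ x : Fin 15, x ∈ (colourStep D)^[8] {y : Fin 15 | y ∉ W} := by
  have key : ∀ (poss : ℕ) (u v : Fin 15), ¬ D u v →
      (∀ x y : Fin 15, D x y → poss.testBit (16 * x.val + y.val) = true) →
      ∀ x y : Fin 15, D x y →
        (Nat.xor poss (2 ^ (16 * u.val + v.val))).testBit (16 * x.val + y.val) = true := by
    intro poss u v huv h x y hxy
    have h4 : Nat.xor poss (2 ^ (16 * u.val + v.val)) = poss ^^^ (2 ^ (16 * u.val + v.val)) := rfl
    rw [h4, Nat.testBit_xor, h x y hxy, Nat.testBit_two_pow]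
    have hne : ¬ (16 * u.val + v.val = 16 * x.val + y.val) := by
      intro heq
      have h1 := u.isLt
      have h2 := v.isLt
      have h3 := x.isLt
      have h5 := y.isLt
      have hux : u = x := Fin.ext (by omega)
      have hvy : v = y := Fin.ext (by omega)
      rw [hux, hvy] at huv
      exact huv hxy
    simp [hne]
  induction T with
  | leaf L =>
    intro poss hposs h
    simp only [check] at h
    obtain ⟨W, hWc, -, hWr⟩ := leaf_sound full poss D hfull hposs 8 L 0 h
    refine ⟨W, hWc, ?_⟩
    intro x
    have := hWr x (by simp)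
    simpa using this
  | node u v a b iha ihb =>
    intro poss hposs h
    simp only [check, Bool.and_eq_true] at h
    obtain ⟨hu, hv, ha, hb⟩ := h
    have hu' : u < 15 := by simpa [Nat.blt_eq] using hu
    have hv' : v < 15 := by simpa [Nat.blt_eq] using hv
    by_cases hD : D ⟨u, hu'⟩ ⟨v, hv'⟩
    · exact iha _ (key poss ⟨v, hv'⟩ ⟨u, hu'⟩ (hasym _ _ hD) hposs) ha
    · exact ihb _ (key poss ⟨u, hu'⟩ ⟨v, hv'⟩ hD hposs) hb

end Soundness

section Graph

/-- the counterexample graph -/
def G0 : SimpleGraph (Fin 15) where
  Adj x y := full.testBit (16 * x.val + y.val) = true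
  symm := ⟨by decide +kernel⟩
  loopless := ⟨by decide +kernel⟩

theorem G0_connected : G0.Connected := by
  have hadj : ∀ x y : Fin 15, full.testBit (16 * x.val + y.val) = true → G0.Reachable x y :=
    fun x y h => SimpleGraph.Adj.reachable h
  have r1 : G0.Reachable 0 1 := hadj 0 1 (by decide +kernel)
  have r2 : G0.Reachable 0 2 := hadj 0 2 (by decide +kernel)
  have r3 : G0.Reachable 0 3 := hadj 0 3 (by decide +kernel)
  have r4 : G0.Reachable 0 4 := r1.trans (hadj 1 4 (by decide +kernel))
  have r5 : G0.Reachable 0 5 := r4.trans (hadj 4 5 (by decide +kernel))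
  have r6 : G0.Reachable 0 6 := r4.trans (hadj 4 6 (by decide +kernel))
  have r7 : G0.Reachable 0 7 := r6.trans (hadj 6 7 (by decide +kernel))
  have r8 : G0.Reachable 0 8 := r3.trans (hadj 3 8 (by decide +kernel))
  have r9 : G0.Reachable 0 9 := r7.trans (hadj 7 9 (by decide +kernel))
  have r14 : G0.Reachable 0 14 := r9.trans (hadj 9 14 (by decide +kernel))
  have r12 : G0.Reachable 0 12 := r14.trans (hadj 14 12 (by decide +kernel))
  have r10 : G0.Reachable 0 10 := r12.trans (hadj 12 10 (by decide +kernel))
  have r11 : G0.Reachable 0 11 := r12.trans (hadj 12 11 (by decide +kernel))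
  have r13 : G0.Reachable 0 13 := r10.trans (hadj 10 13 (by decide +kernel))
  have hall : ∀ x : Fin 15, G0.Reachable 0 x := by
    intro x
    fin_cases x
    · exact SimpleGraph.Reachable.refl _
    all_goals assumption
  have : Nonempty (Fin 15) := ⟨0⟩
  exact { preconnected := fun x y => (hall x).symm.trans (hall y) }

theorem forcingNumber_le_seven (D : Fin 15 → Fin 15 → Prop) (hD : IsOrientation G0 D) :
    forcingNumber D ≤ 7 := by
  have hfull : ∀ x y : Fin 15, full.testBit (16 * x.val + y.val) = true → D x y ∨ D y x := by
    intro x y h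
    rcases hD.2 x y h with h1 | h1
    · exact Or.inl h1.1
    · exact Or.inr h1.1
  have hasym : ∀ x y : Fin 15, D x y → ¬ D y x := by
    intro x y h1 h2
    rcases hD.2 x y (hD.1 x y h1) with h3 | h3
    · exact h3.2 h2
    · exact h3.2 h1
  obtain ⟨W, hWc, hW⟩ := tree_sound full D hfull hasym root full (fun x y h => hD.1 x y h) root_ok
  have hcard : (Wᶜ).card = 7 := by
    rw [Finset.card_compl, hWc]
    rfl
  refine Nat.sInf_le ⟨Wᶜ, ⟨Finset.card_pos.1 (by rw [hcard]; decide), 8, ?_⟩, hcard⟩
  have hset : ((Wᶜ : Finset (Fin 15)) : Set (Fin 15)) = {y | y ∉ W} := by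
    ext y
    simp
  rw [hset, Set.eq_univ_iff_forall]
  exact hW

theorem MOF_G0_le : MOF G0 ≤ 7 := by
  refine csSup_le' ?_
  rintro k ⟨D, hD, rfl⟩
  exact forcingNumber_le_seven D hD

theorem matchingNumber_G0_le : matchingNumber G0 ≤ 7 := by
  refine csSup_le' ?_
  rintro k ⟨M, hM, rfl⟩
  have h := two_mul_card_le hM
  have h15 : Fintype.card (Fin 15) = 15 := Fintype.card_fin 15
  rw [h15] at h
  omega

end Graph

/-- There is a graph, on `n ≥ 2` vertices and even connected, with `MOF(G) < n - μ(G)`. -/
theorem result : ∃ (n : ℕ) (G : SimpleGraph (Fin n)),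
    2 ≤ n ∧ G.Connected ∧ MOF G < n - matchingNumber G := by
  refine ⟨15, G0, by norm_num, G0_connected, ?_⟩
  have h1 := MOF_G0_le
  have h2 := matchingNumber_G0_le
  omega

end Pool.Agent.Results.MP_610dff_co.MatchingBoundFails
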